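import Pool.Agent.HAE.FIN
import Pool.Agent.HAE.FINb

/-!
# Half the Frobenius trace is prime: almost all primes, in class numbers

For a prime `p > 3` the number of pairs `(a, b)` in `F_p × F_p` with `4a³ + 27b² ≠ 0` whose curve `y² = x³ + a x + b` has
trace `2q` or `- 2q` is `(p - 1) H(4p - 4q²)` (Deuring, Schoof; not used in the Lean).  So
`(1/p) ∑_{q prime, q² < p} H(4p - 4q²)` is the proportion of the curves modulo `p` for which half the absolute value of
the trace is a prime.  Second part of the theorem: for all primes `p ≤ X` with `O(X/(log X)^A)` exceptions this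
proportion is `((π²/6) sing p + O(ε))/log p`.  First part: with the weight `log q` the error is smaller by any power
of the logarithm.
-/

set_option autoImplicit false

open Finset
open Pool.Agent.HAV (hurwitz)

namespace Pool.Agent.Results.MP_9fc08c_nt.AlmostAllPrimes

/-- The singular series `(1 + χ₄(p)/4) ∏_{l odd} (1 - (1 + (-p/l))/(l (l - 1)))`. -/
noncomputable def sing (p : ℕ) : ℝ :=
  ∏' l : Nat.Primes, (if (l : ℕ) = 2 then 1 + (ZMod.χ₄ (p : ZMod 4) : ℝ) / 4
    else 1 - (1 + (jacobiSym (-(p : ℤ)) l : ℝ)) / ((l : ℝ) * ((l : ℝ) - 1)))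

private theorem sing_eq (p : ℕ) : Pool.Agent.HAE.SS p = sing p := by
  unfold Pool.Agent.HAE.SS sing
  refine tprod_congr fun l => ?_
  split_ifs
  · rfl
  · unfold Pool.Agent.HAE.loc
    ring

private theorem qr_eq (p : ℕ) : Pool.Agent.HAV.qr p = (Icc 1 p).filter (fun q => q.Prime ∧ q ^ 2 < p) := by
  unfold Pool.Agent.HAV.qr
  congr

open Classical in
theorem result :
    (∀ A E : ℕ, ∃ C : ℝ, ∀ X : ℕ, 2 ≤ X →
      (((Icc 1 X).filter (fun p : ℕ => p.Prime ∧ (p : ℝ) / Real.log p ^ E <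
        |∑ q ∈ (Icc 1 p).filter (fun q => q.Prime ∧ q ^ 2 < p), Real.log q * hurwitz (4 * (p - q ^ 2)) -
          Real.pi ^ 2 / 12 * p * sing p|)).card : ℝ) ≤ C * X / Real.log X ^ A) ∧
    (∀ ε : ℝ, 0 < ε → ∀ A : ℕ, ∃ C : ℝ, ∀ X : ℕ, 2 ≤ X →
      (((Icc 1 X).filter (fun p : ℕ => p.Prime ∧ ε <
        |Real.log p * ((∑ q ∈ (Icc 1 p).filter (fun q => q.Prime ∧ q ^ 2 < p), hurwitz (4 * (p - q ^ 2))) / (p : ℝ)) -
          Real.pi ^ 2 / 6 * sing p|)).card : ℝ) ≤ C * X / Real.log X ^ A) := by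
  constructor
  · intro A E
    obtain ⟨C, hC⟩ := Pool.Agent.HAE.finb A E
    refine ⟨C, fun X hX => ?_⟩
    refine le_trans (le_of_eq ?_) (hC X hX)
    congr 2
    unfold Pool.Agent.HAV.pr
    rw [Finset.filter_filter]
    refine Finset.filter_congr fun p _ => ?_
    rw [sing_eq, qr_eq]
  · intro ε hε A
    obtain ⟨C, hC⟩ := Pool.Agent.HAE.fin ε hε A
    refine ⟨C, fun X hX => ?_⟩
    refine le_trans (le_of_eq ?_) (hC X hX)
    congr 2
    unfold Pool.Agent.HAV.pr
    rw [Finset.filter_filter]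
    refine Finset.filter_congr fun p _ => ?_
    have e2 : Real.log p / p * ∑ q ∈ Pool.Agent.HAV.qr p, hurwitz (4 * (p - q ^ 2)) =
        Real.log p * ((∑ q ∈ (Icc 1 p).filter (fun q => q.Prime ∧ q ^ 2 < p), hurwitz (4 * (p - q ^ 2))) / (p : ℝ)) := by
      rw [qr_eq]
      ring
    rw [e2, sing_eq]

end Pool.Agent.Results.MP_9fc08c_nt.AlmostAllPrimes
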