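import Pool.Agent.HAV.FIN
import Pool.Agent.HAV.FIN2

/-!
# Half the Frobenius trace is prime: the average over all curves, in class numbers

For a prime `p > 3` the number of pairs `(a, b)` in `F_p × F_p` with `4a³ + 27b² ≠ 0` whose curve `y² = x³ + a x + b` has
trace `2q` or `- 2q` is `(p - 1) H(4p - 4q²)` (Deuring, Schoof; not used in the Lean).  So
`(1/p) ∑_{q prime, q² < p} H(4p - 4q²)` is the proportion of the curves modulo `p` for which half the absolute value of
the trace is a prime, and the theorem is the average form of the question for all curves modulo `p`, `p ≤ X`.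
-/

set_option autoImplicit false

open Finset Filter Topology

namespace Pool.Agent.Results.MP_9fc08c_nt.ClassNumberAverage

open Pool.Agent.HAV in
open Classical in
theorem result : Tendsto (fun X : ℕ =>
    (∑ p ∈ (Icc 1 X).filter Nat.Prime,
      (∑ q ∈ (Icc 1 p).filter (fun q => q.Prime ∧ q ^ 2 < p), hurwitz (4 * (p - q ^ 2))) / (p : ℝ)) /
      ((X : ℝ) / Real.log X ^ 2)) atTop
    (𝓝 (2 * ∏' l : Nat.Primes, (1 - 1 / ((l : ℝ) ^ 3 - (l : ℝ) ^ 2 - (l : ℝ) + 1)))) := by
  let t : ℕ → ℝ := fun p => if p.Prime then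
    ∑ q ∈ (Icc 1 p).filter (fun q => q.Prime ∧ q ^ 2 < p), hurwitz (4 * (p - q ^ 2)) else 0
  have h1 : Tendsto (fun X : ℕ => (∑ n ∈ Icc 1 X, t n) * Real.log X ^ 2 / (X : ℝ) ^ 2) atTop (𝓝 CC) := by
    refine fin.congr fun X => ?_
    have e : T X = ∑ n ∈ Icc 1 X, t n := by
      simp only [t]
      rw [← Finset.sum_filter]
      unfold T pr qr
      refine Finset.sum_congr (by congr) fun p _ => Finset.sum_congr (by congr) fun q _ => rfl
    rw [e]
  have h2 := partial_sum t CC h1
  have e1 : CC = ∏' l : Nat.Primes, (1 - 1 / ((l : ℝ) ^ 3 - (l : ℝ) ^ 2 - (l : ℝ) + 1)) := rfl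
  rw [← e1]
  refine h2.congr fun X => ?_
  have e2 : ∑ n ∈ Icc 1 X, t n / n = ∑ p ∈ (Icc 1 X).filter Nat.Prime,
      (∑ q ∈ (Icc 1 p).filter (fun q => q.Prime ∧ q ^ 2 < p), hurwitz (4 * (p - q ^ 2))) / (p : ℝ) := by
    rw [Finset.sum_filter]
    refine Finset.sum_congr rfl fun p _ => ?_
    simp only [t]
    split_ifs
    · rfl
    · rw [zero_div]
  rw [e2, div_div_eq_mul_div]

end Pool.Agent.Results.MP_9fc08c_nt.ClassNumberAverage
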